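import Pool.Agent.helper58.FI.SpecC

/-!
# Row DOB of project FI: orthogonality of columns
-/

set_option autoImplicit false

namespace Pool.Agent.FI

open Pool.Agent.helper58.DC Pool.Agent.DI Pool.Agent.GR Pool.Agent.OB Pool.Agent.DR

theorem DOB_mem_Cz {G : Type} [Group G] {H : Subgroup G} {y x : G} :
    x ∈ Cz H y ↔ x ∈ H ∧ y * x = x * y := by
  unfold Cz
  rw [Subgroup.mem_inf, Subgroup.mem_centralizer_singleton_iff]
  constructor
  · rintro ⟨h1, h2⟩
    exact ⟨h1, h2.symm⟩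
  · rintro ⟨h1, h2⟩
    exact ⟨h1, h2.symm⟩

theorem DOB_mem_conj {G : Type} [Group G] {H : Subgroup G} {a u w x : G} (hw : w ∈ H)
    (h : w⁻¹ * a * w = u) : w⁻¹ * x * w ∈ Cz H u ↔ x ∈ Cz H a := by
  rw [DOB_mem_Cz, DOB_mem_Cz]
  have e1 : w⁻¹ * x * w ∈ H ↔ x ∈ H := by
    constructor
    · intro h1
      have h2 := H.mul_mem (H.mul_mem hw h1) (H.inv_mem hw)
      have h3 : w * (w⁻¹ * x * w) * w⁻¹ = x := by group
      rwa [h3] at h2
    · intro h1
      exact H.mul_mem (H.mul_mem (H.inv_mem hw) h1) hw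
  have e2 : u * (w⁻¹ * x * w) = w⁻¹ * x * w * u ↔ a * x = x * a := by
    rw [← h]
    have h1 : w⁻¹ * a * w * (w⁻¹ * x * w) = w⁻¹ * (a * x) * w := by group
    have h2 : w⁻¹ * x * w * (w⁻¹ * a * w) = w⁻¹ * (x * a) * w := by group
    rw [h1, h2]
    constructor
    · intro h3
      exact mul_left_cancel (mul_right_cancel h3)
    · intro h3
      rw [h3]
  rw [e1, e2]

theorem DOB_cjS {G : Type} [Group G] {H : Subgroup G} {a u w : G} (hw : w ∈ H)
    (h : w⁻¹ * a * w = u) : cjS w⁻¹ (Cz H a) = Cz H u := by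
  ext x
  rw [mem_cjS, inv_inv]
  have h1 := DOB_mem_conj (x := w * x * w⁻¹) hw h
  have h2 : w⁻¹ * (w * x * w⁻¹) * w = x := by group
  rw [h2] at h1
  exact h1.symm

theorem DOB (hKYH : KYH_stmt) (hTRX : TRX_stmt) (hIDM : IDM_stmt) (hEIN : EIN_stmt)
    (hCVF : CVF_stmt) (hCCI : CCI_stmt) (hEXP : EXP_stmt) (hZER : ZER_stmt) (hFEQ : FEQ_stmt)
    (hEVC : EVC_stmt) : DOB_stmt := by
  intro p M hS G _ _ H a ha hpa u hu hpu S S' hBS hBS' hdis
  classical
  have iS := hIDM G (Cz H a) S hBS.sub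
  have iS' := hIDM G (Cz H u) S' hBS'.sub
  have haC : a ∈ Cz H a := DOB_mem_Cz.2 ⟨ha, rfl⟩
  have huC : u ∈ Cz H u := DOB_mem_Cz.2 ⟨hu, rfl⟩
  have hle : Cz H a ≤ H := inf_le_left
  have hle' : Cz H u ≤ H := inf_le_left
  have sup : ∀ x, x ∉ H → eS (Cz H a) S x = 0 := fun x hx => iS.1.2 x fun h => hx (hle h)
  have sup' : ∀ x, x ∉ H → eS (Cz H u) S' x = 0 := fun x hx => iS'.1.2 x fun h => hx (hle' h)
  have hreg : PReg p (1 : G) := by
    intro h
    rw [orderOf_one] at h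
    exact hS.pr.one_lt.ne' (Nat.dvd_one.1 h)
  -- the condition
  have hcond : ∀ z ∈ H, ∀ w ∈ H, z⁻¹ * a * z = u → w⁻¹ * a * w = u →
      InM M (∑ᶠ x, eS (Cz H a) S x * eS (Cz H u) S' (w⁻¹ * x⁻¹ * z)) := by
    intro z hz w hw hzu hwu
    set h2 : G → ℂ := fun x => eS (Cz H u) S' (w⁻¹ * x * w) with hh2
    have e1 : ∑ᶠ x, eS (Cz H a) S x * eS (Cz H u) S' (w⁻¹ * x⁻¹ * z) =
        cv (eS (Cz H a) S) h2 (z * w⁻¹) := by
      unfold cv
      refine finsum_congr fun x => ?_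
      rw [hh2]
      change _ = eS (Cz H a) S x * eS (Cz H u) S' (w⁻¹ * (x⁻¹ * (z * w⁻¹)) * w)
      congr 2
      group
    have hC2 : CF (Cz H a) h2 := by
      refine ⟨fun c hc x => ?_, fun x hx => ?_⟩
      · change eS (Cz H u) S' (w⁻¹ * (c * x * c⁻¹) * w) = eS (Cz H u) S' (w⁻¹ * x * w)
        have hcc := (DOB_mem_conj (x := c) hw hwu).2 hc
        have e2 : w⁻¹ * (c * x * c⁻¹) * w =
            (w⁻¹ * c * w) * (w⁻¹ * x * w) * (w⁻¹ * c * w)⁻¹ := by group
        rw [e2]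
        exact iS'.1.1 _ hcc _
      · change eS (Cz H u) S' (w⁻¹ * x * w) = 0
        exact iS'.1.2 _ fun h => hx ((DOB_mem_conj (x := x) hw hwu).1 h)
    have hz0 : cv (eS (Cz H a) S) h2 = 0 := by
      refine hEXP G (Cz H a) _ ?_ ?_
      · exact ((hCVF G).2.2.2.2.2.2.2.1 (Cz H a) _ _ iS.1 hC2).1
      · intro ψ hψ
        rw [(hCCI G (Cz H a) ψ hψ).2.1 _ _ iS.1 hC2, iS.2.1 ψ hψ]
        have e3 : cc ψ h2 = cc (cjF w⁻¹ ψ) (eS (Cz H u) S') := by
          have e4 := cc_funMap w⁻¹ ψ (eS (Cz H u) S')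
          rw [inv_inv] at e4
          exact e4.symm
        have hirr : cjF w⁻¹ ψ ∈ IrrOn (Cz H u) := by
          have e5 := (hFEQ G M w⁻¹ 1 ⊥ ⊥ (Cz H a) ψ ψ ψ).2.2.2.1.1 hψ
          rwa [DOB_cjS hw hwu] at e5
        rw [e3, iS'.2.1 _ hirr]
        by_cases h3 : ψ ∈ S
        · have h4 : cjF w⁻¹ ψ ∉ S' := by
            intro h5
            have h6 : w * u * w⁻¹ = a := by
              rw [← hwu]
              group
            have h7 := hdis w hw h6 _ h5
            apply h7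
            have h8 : cjF w (cjF w⁻¹ ψ) = ψ := by
              funext x
              rw [cjF_apply, cjF_apply, inv_inv]
              congr 1
              group
            rw [h8]
            exact h3
          rw [if_neg h4, mul_zero]
        · rw [if_neg h3, zero_mul]
    rw [e1, hz0]
    exact InM.zero hS
  have key := hKYH p M hS G H (eS (Cz H a) S) (eS (Cz H u) S') sup sup'
    (hEIN p M hS G (Cz H a) S hBS) (hEIN p M hS G (Cz H u) S' hBS') iS.2.2.1 iS'.2.2.1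
    a ha 1 H.one_mem u hu 1 H.one_mem hpa hpu hreg hreg (Commute.one_right a)
    (Commute.one_right u) (by
      intro x
      rw [mul_one]
      exact iS.1.1 a haC x) (by
      intro x
      rw [mul_one]
      exact iS'.1.1 u huC x) hcond
  have htr := hTRX G H (eS (Cz H a) S) (eS (Cz H u) S') sup sup' a ha u hu
  set R : ℂ := ∑ᶠ χ' ∈ IrrOn H, ev χ' (eS (Cz H a) S) a * ev χ' (eS (Cz H u) S') u⁻¹ with hR
  have hsm : ∀ r : ℕ, Small p M r R := by
    intro r
    have k1 := key r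
    rw [mul_one, mul_one, htr] at k1
    exact k1
  set N : ℂ := (Nat.card (Cz H a) : ℂ) * (Nat.card (Cz H u) : ℂ) with hN
  have hN0 : N ≠ 0 := by
    have h1 : (Nat.card (Cz H a) : ℂ) ≠ 0 := by
      exact_mod_cast Nat.card_pos.ne'
    have h2 : (Nat.card (Cz H u) : ℂ) ≠ 0 := by
      exact_mod_cast Nat.card_pos.ne'
    exact mul_ne_zero h1 h2
  have hint : IsIntegral ℤ (N * R) := by
    by_cases hf : (IrrOn H ∩ Function.support fun χ' : G → ℂ =>
        ev χ' (eS (Cz H a) S) a * ev χ' (eS (Cz H u) S') u⁻¹).Finite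
    · rw [hR, finsum_mem_eq_sum _ hf, Finset.mul_sum]
      refine IsIntegral.sum _ fun χ' hχ' => ?_
      have h1 : χ' ∈ IrrOn H := (hf.mem_toFinset.1 hχ').1
      have h2 := (hEVC G (Cz H a) H S hBS.sub hle χ' h1 a haC).2
      have h3 := (hEVC G (Cz H u) H S' hBS'.sub hle' χ' h1 u⁻¹ ((Cz H u).inv_mem huC)).2
      have h4 : N * (ev χ' (eS (Cz H a) S) a * ev χ' (eS (Cz H u) S') u⁻¹) =
          ((Nat.card (Cz H a) : ℂ) * ev χ' (eS (Cz H a) S) a) *
            ((Nat.card (Cz H u) : ℂ) * ev χ' (eS (Cz H u) S') u⁻¹) := by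
        rw [hN]
        ring
      rw [h4]
      exact h2.mul h3
    · rw [hR, finsum_mem_eq_zero_of_infinite hf, mul_zero]
      exact isIntegral_zero
  have hzero : N * R = 0 := by
    refine hZER p M hS _ hint fun r => ?_
    have h1 : IntAt M N := (IntAt.natCast hS _).mul hS (IntAt.natCast hS _)
    exact Small.mul_left hS h1 (hsm r)
  exact (mul_eq_zero.1 hzero).resolve_left hN0

end Pool.Agent.FI
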