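import Pool.Agent.helper36.HK.SpecN

set_option autoImplicit false

open Finset

noncomputable section

namespace Pool.Agent.FI

private theorem GBA_cosh (x : ℝ) (hx : |x| ≤ 1) : Real.cosh x ≤ 2 := by
  rw [← Real.cosh_abs, Real.cosh_eq]
  have h1 : Real.exp |x| ≤ Real.exp 1 := Real.exp_le_exp.2 hx
  have h2 : Real.exp (-|x|) ≤ 1 := Real.exp_le_one_iff.2 (neg_nonpos.2 (abs_nonneg x))
  have := Real.exp_one_lt_d9
  linarith

private theorem GBA_sinh (u v : ℝ) (hu : |u| ≤ 1) (hv : |v| ≤ 1) :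
    |Real.sinh u - Real.sinh v| ≤ 2 * |u - v| := by
  have h := Convex.norm_image_sub_le_of_norm_hasDerivWithin_le (f := Real.sinh) (f' := Real.cosh)
    (C := 2) (s := Set.Icc (-1) 1) (x := v) (y := u)
    (fun x _ => (Real.hasDerivAt_sinh x).hasDerivWithinAt)
    (fun x hx => by
      rw [Real.norm_eq_abs, abs_of_pos (Real.cosh_pos x)]
      exact GBA_cosh x (abs_le.2 hx))
    (convex_Icc _ _) (abs_le.1 hv) (abs_le.1 hu)
  simpa only [Real.norm_eq_abs] using h

private theorem GBA_coshl (u v : ℝ) (hu : |u| ≤ 1) (hv : |v| ≤ 1) :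
    |Real.cosh u - Real.cosh v| ≤ 2 * |u - v| := by
  have h := Convex.norm_image_sub_le_of_norm_hasDerivWithin_le (f := Real.cosh) (f' := Real.sinh)
    (C := 2) (s := Set.Icc (-1) 1) (x := v) (y := u)
    (fun x _ => (Real.hasDerivAt_cosh x).hasDerivWithinAt)
    (fun x hx => by
      rw [Real.norm_eq_abs]
      have h1 := GBA_cosh x (abs_le.2 hx)
      have h2 := Real.cosh_sq x
      have h3 := Real.cosh_pos x
      apply abs_le_of_sq_le_sq _ (by norm_num)
      nlinarith)
    (convex_Icc _ _) (abs_le.1 hv) (abs_le.1 hu)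
  simpa only [Real.norm_eq_abs] using h

private theorem GBA_s8 : (282 : ℝ) / 100 < √8 ∧ √8 < 283 / 100 := by
  constructor
  · apply Real.lt_sqrt_of_sq_lt; norm_num
  · rw [Real.sqrt_lt' (by norm_num)]; norm_num

/-- geometry -/
private theorem GBA_geo (z : ℤ × ℤ) (h : |z.1| < 2 * z.2) :
    0 < √(nn z : ℝ) ∧ √(nn z : ℝ) ^ 2 = nn z ∧ (z.1 : ℝ) = √(nn z : ℝ) * Real.sinh (yy z / 2) ∧
    (z.2 : ℝ) * √8 = √(nn z : ℝ) * Real.cosh (yy z / 2) ∧
    (nn z : ℝ) = 8 * (z.2 : ℝ) ^ 2 - (z.1 : ℝ) ^ 2 := by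
  obtain ⟨a, l⟩ := z
  simp only at h ⊢
  obtain ⟨s1, s2⟩ := GBA_s8
  have h' : |(a : ℝ)| < 2 * l := by exact_mod_cast h
  have ha := abs_nonneg (a : ℝ)
  have hl : (0 : ℝ) < l := by linarith
  have h3 : (28 / 10 : ℝ) * l ≤ l * √8 := by nlinarith
  have h4 := abs_le.1 (le_refl |(a : ℝ)|)
  have p1 : 0 < (l : ℝ) * √8 + a := by linarith [h4.1]
  have p2 : 0 < (l : ℝ) * √8 - a := by linarith [h4.2]
  have s8 : √(8 : ℝ) ^ 2 = 8 := Real.sq_sqrt (by norm_num)
  have hn : (nn (a, l) : ℝ) = ((l : ℝ) * √8 + a) * ((l : ℝ) * √8 - a) := by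
    have e1 : (nn (a, l) : ℤ) = 8 * l ^ 2 - a ^ 2 := by
      unfold nn N8
      have h0 := abs_nonneg a
      have h1 : |a| ^ 2 < (2 * l) ^ 2 := by
        apply pow_lt_pow_left₀ h (by positivity) (by norm_num)
      rw [mul_pow, sq_abs] at h1
      have h2 := sq_nonneg l
      simp only
      omega
    have e2 : (nn (a, l) : ℝ) = 8 * (l : ℝ) ^ 2 - (a : ℝ) ^ 2 := by exact_mod_cast e1
    rw [e2]
    nlinarith
  have hn2 : (nn (a, l) : ℝ) = 8 * (l : ℝ) ^ 2 - (a : ℝ) ^ 2 := by
    rw [hn]; nlinarith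
  have hpos : (0 : ℝ) < nn (a, l) := by rw [hn]; exact mul_pos p1 p2
  have hy : yy (a, l) = Real.log ((l : ℝ) * √8 + a) - Real.log ((l : ℝ) * √8 - a) := by
    unfold yy
    rw [show ((a, l) : ℤ × ℤ).1 = a from rfl, show ((a, l) : ℤ × ℤ).2 = l from rfl,
      abs_sub_comm (a : ℝ) (l * √8), add_comm (a : ℝ) (l * √8), abs_of_pos p1, abs_of_pos p2,
      Real.log_div p1.ne' p2.ne']
  have hs : √(nn (a, l) : ℝ) = Real.exp ((Real.log ((l : ℝ) * √8 + a) + Real.log ((l : ℝ) * √8 - a)) / 2) := by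
    rw [Real.sqrt_eq_iff_mul_self_eq hpos.le (Real.exp_pos _).le, ← Real.exp_add, hn]
    rw [show (Real.log ((l : ℝ) * √8 + a) + Real.log ((l : ℝ) * √8 - a)) / 2 +
      (Real.log ((l : ℝ) * √8 + a) + Real.log ((l : ℝ) * √8 - a)) / 2 =
      Real.log ((l : ℝ) * √8 + a) + Real.log ((l : ℝ) * √8 - a) by ring, Real.exp_add,
      Real.exp_log p1, Real.exp_log p2]
  have e1 : √(nn (a, l) : ℝ) * Real.exp (yy (a, l) / 2) = (l : ℝ) * √8 + a := by
    rw [hs, hy, ← Real.exp_add]
    rw [show (Real.log ((l : ℝ) * √8 + a) + Real.log ((l : ℝ) * √8 - a)) / 2 +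
      (Real.log ((l : ℝ) * √8 + a) - Real.log ((l : ℝ) * √8 - a)) / 2 =
      Real.log ((l : ℝ) * √8 + a) by ring, Real.exp_log p1]
  have e2 : √(nn (a, l) : ℝ) * Real.exp (-(yy (a, l) / 2)) = (l : ℝ) * √8 - a := by
    rw [hs, hy, ← Real.exp_add]
    rw [show (Real.log ((l : ℝ) * √8 + a) + Real.log ((l : ℝ) * √8 - a)) / 2 +
      -((Real.log ((l : ℝ) * √8 + a) - Real.log ((l : ℝ) * √8 - a)) / 2) =
      Real.log ((l : ℝ) * √8 - a) by ring, Real.exp_log p2]
  refine ⟨Real.sqrt_pos.2 hpos, Real.sq_sqrt hpos.le, ?_, ?_, hn2⟩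
  · rw [Real.sinh_eq]; linarith
  · rw [Real.cosh_eq]; linarith

/-- the sum of the tents -/
private theorem GBA_tents (m : ℕ) (Y : ℝ) :
    ∑ k ∈ Ico 1 m, max 0 (1 - |Y - k|) ≤ 1 ∧
    (1 ≤ Y → Y ≤ m - 1 → ∑ k ∈ Ico 1 m, max 0 (1 - |Y - k|) = 1) := by
  rcases lt_or_ge Y 0 with hY | hY
  · have h0 : ∑ k ∈ Ico 1 m, max 0 (1 - |Y - k|) = 0 := by
      apply Finset.sum_eq_zero
      intro k hk
      have hk1 : (1 : ℝ) ≤ k := by exact_mod_cast (mem_Ico.1 hk).1
      apply max_eq_left
      rw [abs_of_neg (by linarith)]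
      linarith
    rw [h0]
    exact ⟨zero_le_one, fun h => by linarith⟩
  · have h1 : (⌊Y⌋₊ : ℝ) ≤ Y := Nat.floor_le hY
    have h2 : Y < ⌊Y⌋₊ + 1 := Nat.lt_floor_add_one Y
    have ht : ∀ k : ℕ, max 0 (1 - |Y - k|) = (if k = ⌊Y⌋₊ then 1 - (Y - ⌊Y⌋₊) else 0) +
        (if k = ⌊Y⌋₊ + 1 then Y - ⌊Y⌋₊ else 0) := by
      intro k
      rcases lt_trichotomy k ⌊Y⌋₊ with hk | hk | hk
      · rw [if_neg (by omega), if_neg (by omega)]
        have hk' : (k : ℝ) + 1 ≤ ⌊Y⌋₊ := by exact_mod_cast hk
        rw [abs_of_nonneg (by linarith), max_eq_left (by linarith)]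
        ring
      · rw [if_pos hk, if_neg (by omega), hk]
        rw [abs_of_nonneg (by linarith), max_eq_right (by linarith)]
        ring
      · rcases Nat.lt_or_ge (⌊Y⌋₊ + 1) k with hk2 | hk2
        · rw [if_neg (by omega), if_neg (by omega)]
          have hk' : ((⌊Y⌋₊ : ℝ) + 1) + 1 ≤ k := by exact_mod_cast hk2
          rw [abs_of_nonpos (by linarith), max_eq_left (by linarith)]
          ring
        · have hk3 : k = ⌊Y⌋₊ + 1 := by omega
          rw [if_neg (by omega), if_pos hk3, hk3]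
          push_cast
          rw [abs_of_nonpos (by linarith), max_eq_right (by linarith)]
          ring
    have hsum : ∑ k ∈ Ico 1 m, max 0 (1 - |Y - k|) =
        (if ⌊Y⌋₊ ∈ Ico 1 m then 1 - (Y - ⌊Y⌋₊) else 0) +
        (if ⌊Y⌋₊ + 1 ∈ Ico 1 m then Y - ⌊Y⌋₊ else 0) := by
      rw [Finset.sum_congr rfl (fun k _ => ht k), Finset.sum_add_distrib]
      rw [Finset.sum_ite_eq', Finset.sum_ite_eq']
    rw [hsum]
    constructor
    · split_ifs <;> linarith
    · intro h3 h4
      have h5 : 1 ≤ ⌊Y⌋₊ := Nat.le_floor (by exact_mod_cast h3)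
      have h6 : ⌊Y⌋₊ < m := by
        have : (⌊Y⌋₊ : ℝ) < m := by linarith
        exact_mod_cast this
      rw [if_pos (mem_Ico.2 ⟨h5, h6⟩)]
      rcases Nat.lt_or_ge (⌊Y⌋₊ + 1) m with h7 | h7
      · rw [if_pos (mem_Ico.2 ⟨by omega, h7⟩)]; ring
      · rw [if_neg (fun h => by have := (mem_Ico.1 h).2; omega)]
        have h8 : (⌊Y⌋₊ : ℝ) + 1 = m := by
          have : ⌊Y⌋₊ + 1 = m := by omega
          exact_mod_cast this
        linarith

private theorem GBA_tn (m k : ℕ) (hm : 1 ≤ m) (y : ℝ) :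
    tn (1 / m) (k / m) y = max 0 (1 - |m * y - k|) := by
  unfold tn
  have hm' : (0 : ℝ) < m := by exact_mod_cast hm
  congr 2
  rw [show y - k / m = (m * y - k) / m by field_simp, abs_div, abs_of_pos hm']
  field_simp

private theorem GBA_near (m k : ℕ) (hm : 1 ≤ m) (y : ℝ) (h : tn (1 / m) (k / m) y ≠ 0) :
    |y - k / m| < 1 / m := by
  have hm' : (0 : ℝ) < m := by exact_mod_cast hm
  rw [GBA_tn m k hm] at h
  have h1 : |m * y - k| < 1 := by
    by_contra hc
    exact h (max_eq_left (by linarith [not_lt.1 hc]))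
  rw [show y - k / m = (m * y - k) / m by field_simp, abs_div, abs_of_pos hm']
  exact (div_lt_div_iff_of_pos_right hm').2 h1

/-- the analytic facts in a cell -/
private theorem GBA_cell (m k : ℕ) (hm : 10 ≤ m) (hk : k ∈ Ico 1 m) (y : ℝ)
    (h : |y - k / m| < 1 / m) : 0 < y ∧ y < 1 ∧ 1 ≤ Real.cosh (k / (2 * m)) ∧
    0 < Real.sinh (k / (2 * m)) ∧ |Real.cosh (y / 2) - Real.cosh (k / (2 * m))| ≤ 1 / m ∧
    |Real.sinh (y / 2) - Real.sinh (k / (2 * m))| ≤ 1 / m := by
  obtain ⟨hk1, hk2⟩ := mem_Ico.1 hk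
  have hm' : (0 : ℝ) < m := by exact_mod_cast (by omega : 0 < m)
  have hk1' : (1 : ℝ) ≤ k := by exact_mod_cast hk1
  have hk2' : (k : ℝ) + 1 ≤ m := by exact_mod_cast hk2
  have h1 : 1 / (m : ℝ) ≤ k / m := (div_le_div_iff_of_pos_right hm').2 hk1'
  have h2 : (k : ℝ) / m + 1 / m ≤ 1 := by
    rw [← add_div, div_le_one hm']; exact hk2'
  have h3 := abs_lt.1 h
  have e : (k : ℝ) / (2 * m) = (k / m) / 2 := by field_simp
  have hkp : (0 : ℝ) < k / (2 * m) := by positivity
  have hv : |(k : ℝ) / (2 * m)| ≤ 1 := by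
    rw [abs_of_pos hkp, e]; linarith [h3.1, h3.2]
  have hu : |y / 2| ≤ 1 := by
    rw [abs_of_pos (by linarith [h3.1]), div_le_one (by norm_num)]; linarith [h3.2]
  have hd : |y / 2 - k / (2 * m)| ≤ 1 / (2 * m) := by
    rw [e, show y / 2 - (k : ℝ) / m / 2 = (y - k / m) / 2 by ring, abs_div,
      abs_of_pos (show (0 : ℝ) < 2 by norm_num)]
    have : 1 / (2 * (m : ℝ)) = (1 / m) / 2 := by field_simp
    rw [this]
    linarith
  have hd2 : 2 * |y / 2 - k / (2 * m)| ≤ 1 / m := by
    have : 1 / (2 * (m : ℝ)) = (1 / m) / 2 := by field_simp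
    rw [this] at hd
    linarith
  exact ⟨by linarith [h3.1], by linarith [h3.2], Real.one_le_cosh _, Real.sinh_pos_iff.2 hkp,
    (GBA_coshl _ _ hu hv).trans hd2, (GBA_sinh _ _ hu hv).trans hd2⟩

theorem GBA (hYYB : YYB_stmt) : GBA_stmt := by
  refine ⟨8, by norm_num, ?_⟩
  intro x A m hA hAx hm z hz
  have hm' : (0 : ℝ) < m := by exact_mod_cast (by omega : 0 < m)
  have hm10 : (10 : ℝ) ≤ m := by exact_mod_cast hm
  have hx1 : (1 : ℝ) ≤ x := by exact_mod_cast (by omega : 1 ≤ x)
  have hx0 : (0 : ℝ) ≤ x := by linarith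
  have hA' : (1 : ℝ) ≤ A := by exact_mod_cast hA
  have hAx' : (A : ℝ) ≤ x := by exact_mod_cast hAx
  obtain ⟨s1, s2⟩ := GBA_s8
  have s8 : √(8 : ℝ) ^ 2 = 8 := Real.sq_sqrt (by norm_num)
  obtain ⟨hs, hs2, ha, hl, hn⟩ := GBA_geo z hz
  have hinv : 1 / (m : ℝ) ≤ 1 / 10 := one_div_le_one_div_of_le (by norm_num) hm10
  have hinv0 : 0 < 1 / (m : ℝ) := by positivity
  have hxm : (x : ℝ) / m = x * (1 / m) := by ring
  have hxm0 : 0 ≤ (x : ℝ) / m := by positivity
  have htn0 : ∀ k : ℕ, 0 ≤ tn (1 / m) (k / m) (yy z) := fun k => le_max_left _ _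
  have hsumt : ∑ k ∈ Ico 1 m, tn (1 / m) (k / m) (yy z) =
      ∑ k ∈ Ico 1 m, max 0 (1 - |(m : ℝ) * yy z - k|) :=
    Finset.sum_congr rfl (fun k _ => GBA_tn m k (by omega) _)
  obtain ⟨ht1, ht2⟩ := GBA_tents m ((m : ℝ) * yy z)
  have hle : wcl x A m z ≤ ∑ k ∈ Ico 1 m, tn (1 / m) (k / m) (yy z) := by
    unfold wcl
    apply Finset.sum_le_sum
    intro k _
    split_ifs
    · exact le_rfl
    · exact htn0 k
  set s := √(nn z : ℝ) with hsdef
  refine ⟨?_, ?_, ?_⟩
  · unfold wcl
    apply Finset.sum_nonneg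
    intro k _
    split_ifs
    · exact htn0 k
    · exact le_rfl
  · exact hle.trans (hsumt.le.trans ht1)
  · intro hne
    have hlpos : (0 : ℝ) < z.2 := by
      have : 0 < z.2 := by
        have := abs_nonneg z.1
        omega
      exact_mod_cast this
    by_cases hb : 0 < z.1 ∧ z.1 ≤ A ∧ (x : ℤ) < z.2 ∧ z.2 ≤ 2 * x
    · -- in the box
      obtain ⟨b1, b2, b3, b4⟩ := hb
      have hw : wbx x A z = 1 := if_pos ⟨b1, b2, b3, b4⟩
      rw [hw] at hne
      have c1 : (0 : ℝ) < z.1 := by exact_mod_cast b1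
      have c2 : (z.1 : ℝ) ≤ A := by exact_mod_cast b2
      have c3 : (x : ℝ) < z.2 := by exact_mod_cast b3
      have c4 : (z.2 : ℝ) ≤ 2 * x := by exact_mod_cast b4
      have hs6 : s ≤ 6 * x := by
        apply le_of_sq_le_sq _ (by positivity)
        rw [hs2, hn]
        nlinarith
      refine ⟨by rw [abs_of_pos c1]; linarith, by rw [abs_of_pos hlpos]; linarith, ?_⟩
      have hsh : 0 < Real.sinh (yy z / 2) := by
        by_contra hc
        have := mul_nonneg hs.le (neg_nonneg.2 (not_lt.1 hc))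
        rw [ha] at c1
        linarith
      have hy0 : 0 < yy z := by
        have := Real.sinh_pos_iff.1 hsh
        linarith
      have hy9 : yy z ≤ 9 / 10 := by
        by_contra hc
        have hc := not_le.1 hc
        have h1 : Real.exp (9 / 20) < Real.exp (yy z / 2) := Real.exp_lt_exp.2 (by linarith)
        have h2 := Real.add_one_le_exp (9 / 20 : ℝ)
        have h3 : Real.exp (-(yy z / 2)) * Real.exp (yy z / 2) = 1 := by
          rw [← Real.exp_add]; simp
        have h4 := Real.exp_pos (-(yy z / 2))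
        have h5 : (z.2 : ℝ) * √8 + z.1 = s * Real.exp (yy z / 2) := by
          rw [hl, ha, ← mul_add, Real.cosh_add_sinh]
        have h6 : (z.2 : ℝ) * √8 - z.1 = s * Real.exp (-(yy z / 2)) := by
          rw [hl, ha, ← mul_sub, Real.cosh_sub_sinh]
        have h7 : (29 / 20 : ℝ) < Real.exp (yy z / 2) := by linarith
        have h8 : (29 / 20 : ℝ) * Real.exp (-(yy z / 2)) < 1 := by
          rw [← h3, mul_comm (Real.exp (-(yy z / 2)))]
          exact mul_lt_mul_of_pos_right h7 h4
        have h9 : ((29 / 20 : ℝ) * (29 / 20)) * Real.exp (-(yy z / 2)) < Real.exp (yy z / 2) := by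
          linarith
        have h10 : ((29 / 20 : ℝ) * (29 / 20)) * ((z.2 : ℝ) * √8 - z.1) < (z.2 : ℝ) * √8 + z.1 := by
          rw [h5, h6]
          have := mul_lt_mul_of_pos_left h9 hs
          linarith
        have h11 : (282 / 100 : ℝ) * z.2 < z.2 * √8 := by nlinarith
        nlinarith
      rcases lt_or_ge (yy z) (1 / m) with hym | hym
      · -- small angle
        left
        have h1 := GBA_sinh (yy z / 2) 0 (by rw [abs_of_pos (by linarith)]; linarith) (by simp)
        rw [Real.sinh_zero, sub_zero, sub_zero, abs_of_pos hsh, abs_of_pos (by linarith)] at h1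
        rw [abs_of_pos c1, ha]
        have h2 : Real.sinh (yy z / 2) ≤ 1 / m := by linarith
        calc s * Real.sinh (yy z / 2) ≤ (6 * x) * (1 / m) := by
              apply mul_le_mul hs6 h2 hsh.le (by positivity)
          _ ≤ 8 * (x / m + 1) := by rw [hxm]; nlinarith
      · have hmy1 : 1 ≤ (m : ℝ) * yy z := by
          have := mul_le_mul_of_nonneg_left hym hm'.le
          rwa [mul_one_div_cancel hm'.ne'] at this
        have hmy2 : (m : ℝ) * yy z ≤ m - 1 := by nlinarith
        have hone := ht2 hmy1 hmy2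
        rw [← hsumt] at hone
        have hex : ∃ k ∈ Ico 1 m, ¬ (cu1 x m k < nn z ∧ nn z ≤ cu2 x A m k) ∧
            tn (1 / m) (k / m) (yy z) ≠ 0 := by
          by_contra hc
          push Not at hc
          apply hne
          rw [← hone]
          unfold wcl
          apply Finset.sum_congr rfl
          intro k hk
          by_cases hcc : cu1 x m k < nn z ∧ nn z ≤ cu2 x A m k
          · rw [if_pos hcc]
          · rw [if_neg hcc, hc k hk (fun h => not_le.1 fun h' => hcc ⟨h, h'⟩)]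
        obtain ⟨k, hk, hk1, hk2⟩ := hex
        obtain ⟨d1, d2, d3, d4, d5, d6⟩ := GBA_cell m k hm hk (yy z) (GBA_near m k (by omega) _ hk2)
        set ck := Real.cosh (k / (2 * m)) with hck
        set sk := Real.sinh (k / (2 * m)) with hsk
        have d5' := abs_le.1 d5
        have d6' := abs_le.1 d6
        have hckp : 0 < ck := by linarith
        rcases Nat.lt_or_ge (cu1 x m k) (nn z) with hk3 | hk3
        · -- above cu2
          have hk4 : cu2 x A m k < nn z := not_le.1 (fun h => hk1 ⟨hk3, h⟩)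
          unfold cu2 at hk4
          have hk5 := (Nat.floor_lt' (by
            have : 0 < nn z := by
              have : (0 : ℝ) < nn z := by rw [← hs2]; positivity
              exact_mod_cast this
            omega)).1 (lt_of_le_of_lt (le_max_right _ _) hk4)
          rcases min_lt_iff.1 hk5 with hk6 | hk6
          · right; right; right
            rw [← hs2, ← hck, div_lt_iff₀ (by positivity)] at hk6
            have h1 : √8 * (2 * x) < s * ck := by
              apply lt_of_pow_lt_pow_left₀ 2 (by positivity)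
              nlinarith
            have h2 : √8 * (2 * x) * (1 - 1 / m) ≤ √8 * z.2 := by
              rw [mul_comm (√8) (z.2 : ℝ), hl]
              have h3 : ck * (1 - 1 / m) ≤ Real.cosh (yy z / 2) := by nlinarith
              calc √8 * (2 * x) * (1 - 1 / m) ≤ s * ck * (1 - 1 / m) := by
                    apply mul_le_mul_of_nonneg_right h1.le (by linarith)
                _ = s * (ck * (1 - 1 / m)) := by ring
                _ ≤ s * Real.cosh (yy z / 2) := mul_le_mul_of_nonneg_left h3 hs.le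
            have h3 : 2 * x * (1 - 1 / m) ≤ (z.2 : ℝ) := by
              rw [mul_assoc] at h2
              exact le_of_mul_le_mul_left h2 (by linarith)
            rw [abs_le]
            constructor
            · rw [hxm]; nlinarith
            · linarith
          · right; left
            rw [← hs2, ← hsk, div_lt_iff₀ (by positivity)] at hk6
            have h1 : (A : ℝ) < s * sk := by
              apply lt_of_pow_lt_pow_left₀ 2 (by positivity)
              nlinarith
            have h2 : s * (sk - 1 / m) ≤ s * Real.sinh (yy z / 2) :=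
              mul_le_mul_of_nonneg_left (by linarith [d6'.1]) hs.le
            have h3 : s * (1 / m) ≤ 6 * x * (1 / m) := mul_le_mul_of_nonneg_right hs6 hinv0.le
            rw [abs_le]
            constructor
            · rw [hxm]; nlinarith
            · linarith
        · -- below cu1
          right; right; left
          have hk4 : (nn z : ℝ) ≤ 8 * (x : ℝ) ^ 2 / ck ^ 2 := by
            have h1 : (nn z : ℝ) ≤ (cu1 x m k : ℝ) := by exact_mod_cast hk3
            exact h1.trans (Nat.floor_le (by positivity))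
          rw [← hs2, le_div_iff₀ (by positivity)] at hk4
          have h1 : s * ck ≤ √8 * x := by
            apply le_of_sq_le_sq _ (by positivity)
            nlinarith
          have h2 : √8 * z.2 ≤ √8 * (x * (1 + 1 / m)) := by
            rw [mul_comm (√8) (z.2 : ℝ), hl]
            have h3 : Real.cosh (yy z / 2) ≤ ck * (1 + 1 / m) := by nlinarith
            calc s * Real.cosh (yy z / 2) ≤ s * (ck * (1 + 1 / m)) :=
                  mul_le_mul_of_nonneg_left h3 hs.le
              _ = s * ck * (1 + 1 / m) := by ring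
              _ ≤ √8 * x * (1 + 1 / m) := mul_le_mul_of_nonneg_right h1 (by linarith)
              _ = √8 * (x * (1 + 1 / m)) := by ring
          have h3 : (z.2 : ℝ) ≤ x * (1 + 1 / m) := le_of_mul_le_mul_left h2 (by linarith)
          rw [abs_le]
          constructor
          · linarith
          · rw [hxm]; nlinarith
    · -- outside the box
      have hw : wbx x A z = 0 := if_neg hb
      rw [hw] at hne
      obtain ⟨k, hk, hkne⟩ := Finset.exists_ne_zero_of_sum_ne_zero hne
      have hcc : cu1 x m k < nn z ∧ nn z ≤ cu2 x A m k := by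
        by_contra hc
        exact hkne (if_neg hc)
      rw [if_pos hcc] at hkne
      obtain ⟨d1, d2, d3, d4, d5, d6⟩ := GBA_cell m k hm hk (yy z) (GBA_near m k (by omega) _ hkne)
      obtain ⟨hk3, hk4⟩ := hcc
      set ck := Real.cosh (k / (2 * m)) with hck
      set sk := Real.sinh (k / (2 * m)) with hsk
      have d5' := abs_le.1 d5
      have d6' := abs_le.1 d6
      have hckp : 0 < ck := by linarith
      have e1 : 8 * (x : ℝ) ^ 2 / ck ^ 2 < nn z := by
        unfold cu1 at hk3
        exact (Nat.floor_lt' (by omega)).1 hk3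
      have e2 : (nn z : ℝ) ≤ min (32 * (x : ℝ) ^ 2 / ck ^ 2) ((A : ℝ) ^ 2 / sk ^ 2) := by
        unfold cu2 at hk4
        rcases le_max_iff.1 hk4 with h | h
        · omega
        · have h1 : (nn z : ℝ) ≤ (⌊min (32 * (x : ℝ) ^ 2 / Real.cosh (k / (2 * m)) ^ 2)
              ((A : ℝ) ^ 2 / Real.sinh (k / (2 * m)) ^ 2)⌋₊ : ℝ) := by exact_mod_cast h
          exact h1.trans (Nat.floor_le (by positivity))
      rw [le_min_iff] at e2
      obtain ⟨e2, e3⟩ := e2
      rw [← hs2, div_lt_iff₀ (by positivity)] at e1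
      rw [← hs2, le_div_iff₀ (by positivity)] at e2 e3
      have f1 : √8 * x < s * ck := by
        apply lt_of_pow_lt_pow_left₀ 2 (by positivity)
        nlinarith
      have f2 : s * ck ≤ √8 * (2 * x) := by
        apply le_of_sq_le_sq _ (by positivity)
        nlinarith
      have f3 : s * sk ≤ A := by
        apply le_of_sq_le_sq _ (by positivity)
        nlinarith
      have g1 : ck * (1 - 1 / m) ≤ Real.cosh (yy z / 2) := by nlinarith
      have g2 : Real.cosh (yy z / 2) ≤ ck * (1 + 1 / m) := by nlinarith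
      have hsh : 0 < Real.sinh (yy z / 2) := Real.sinh_pos_iff.2 (by linarith)
      have hapos : (0 : ℝ) < z.1 := by rw [ha]; exact mul_pos hs hsh
      have u1 : (z.2 : ℝ) ≤ 2 * x * (1 + 1 / m) := by
        have h2 : √8 * z.2 ≤ √8 * (2 * x * (1 + 1 / m)) := by
          rw [mul_comm (√8) (z.2 : ℝ), hl]
          calc s * Real.cosh (yy z / 2) ≤ s * (ck * (1 + 1 / m)) :=
                mul_le_mul_of_nonneg_left g2 hs.le
            _ = s * ck * (1 + 1 / m) := by ring
            _ ≤ √8 * (2 * x) * (1 + 1 / m) := mul_le_mul_of_nonneg_right f2 (by linarith)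
            _ = √8 * (2 * x * (1 + 1 / m)) := by ring
        exact le_of_mul_le_mul_left h2 (by linarith)
      have u2 : (x : ℝ) * (1 - 1 / m) ≤ z.2 := by
        have h2 : √8 * (x * (1 - 1 / m)) ≤ √8 * z.2 := by
          rw [mul_comm (√8) (z.2 : ℝ), hl]
          calc √8 * (x * (1 - 1 / m)) = √8 * x * (1 - 1 / m) := by ring
            _ ≤ s * ck * (1 - 1 / m) := mul_le_mul_of_nonneg_right f1.le (by linarith)
            _ = s * (ck * (1 - 1 / m)) := by ring
            _ ≤ s * Real.cosh (yy z / 2) := mul_le_mul_of_nonneg_left g1 hs.le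
        exact le_of_mul_le_mul_left h2 (by linarith)
      have hxm2 : (x : ℝ) * (1 / m) ≤ x * (1 / 10) := mul_le_mul_of_nonneg_left hinv hx0
      have hs6 : s ≤ 6 * x := by
        have h1 : s ≤ s * ck := by nlinarith
        nlinarith
      have hz' : (z.1 : ℝ) < 2 * z.2 := by
        have h1 : z.1 < 2 * z.2 := lt_of_le_of_lt (le_abs_self _) hz
        exact_mod_cast h1
      refine ⟨by rw [abs_of_pos hapos]; nlinarith, by rw [abs_of_pos hlpos]; nlinarith, ?_⟩
      have hb1 : 0 < z.1 := by exact_mod_cast hapos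
      rcases lt_or_ge (A : ℤ) z.1 with hA1 | hA1
      · right; left
        have hA2 : (A : ℝ) < z.1 := by exact_mod_cast hA1
        have h2 : s * Real.sinh (yy z / 2) ≤ s * (sk + 1 / m) :=
          mul_le_mul_of_nonneg_left (by linarith [d6'.2]) hs.le
        have h3 : s * (1 / m) ≤ 6 * x * (1 / m) := mul_le_mul_of_nonneg_right hs6 hinv0.le
        rw [abs_of_pos (by linarith), hxm]
        nlinarith
      · rcases le_or_gt z.2 (x : ℤ) with hl1 | hl1
        · right; right; left
          have hl2 : (z.2 : ℝ) ≤ x := by exact_mod_cast hl1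
          rw [abs_of_nonpos (by linarith), hxm]
          nlinarith
        · right; right; right
          have hl3 : 2 * (x : ℤ) < z.2 := by
            by_contra hc
            exact hb ⟨hb1, hA1, hl1, not_lt.1 hc⟩
          have hl4 : 2 * (x : ℝ) < z.2 := by exact_mod_cast hl3
          rw [abs_of_pos (by linarith), hxm]
          nlinarith

end Pool.Agent.FI
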