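import Pool.Agent.helper40.FI.SpecLA

/-!
# Row LSM of project FI
-/

set_option autoImplicit false

namespace Pool.Agent.FI

open Finset

open Pool.Agent.GR

theorem LSM_intCast_isIntegral (q : ℤ) : IsIntegral ℤ (q : ℂ) := by
  have := isIntegral_algebraMap (R := ℤ) (A := ℂ) (x := q)
  simpa using this

theorem LSM (hLCG : LCG_stmt) (hLNU : LNU_stmt) (hLIV : LIV_stmt) : LSM_stmt := by
  intro p M D _ _ X _ Z I β d n δ ε hLD hLS χ
  have hfp : Fact p.Prime := ⟨hLD.set.pr⟩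
  obtain ⟨k, hk⟩ := hLD.pg.exists_card_eq
  obtain ⟨c, E, hcE⟩ := hLIV p k δ hLD.set.pr hLD.odd hLS.pd
  obtain ⟨κ, hκ, hκu⟩ := hLNU p M D X Z I β d n hLD
  obtain ⟨hcst, _, _, _, _, hmul, _, hpow, _⟩ := hLCG D
  refine ⟨fun u => ((c : ℂ) * β χ u) * κ u ^ E, E, ?_, ?_⟩
  · exact hmul _ _ (hmul _ _ (hcst c) (hLD.h1 χ)) (hpow κ E hκ)
  · intro u hu
    have hs := hLS.cg u hu
    obtain ⟨q, hq⟩ := hcE (ε u * n u) hs
    have hεε : (ε u : ℂ) * (ε u : ℂ) = 1 := by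
      rcases hLS.pm u with h | h
      · rw [h]
        norm_num
      · rw [h]
        norm_num
    have hI : (Nat.card I : ℂ) ≠ 0 := by
      exact_mod_cast Nat.card_pos.ne'
    have hD : (Nat.card D : ℂ) ≠ 0 := by
      exact_mod_cast Nat.card_pos.ne'
    have hDk : (Nat.card D : ℂ) = (p : ℂ) ^ k := by
      rw [hk]
      push_cast
      rfl
    have hqc : ((ε u : ℂ) * (n u : ℂ)) * (c : ℂ) * (((ε u : ℂ) * (n u : ℂ)) ^ 2) ^ E - 1 =
        (Nat.card D : ℂ) * (q : ℂ) := by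
      rw [hDk]
      have h1 := congrArg (fun z : ℤ => (z : ℂ)) hq
      push_cast at h1
      exact h1
    have hsq : ((ε u : ℂ) * (n u : ℂ)) ^ 2 = (n u : ℂ) ^ 2 := by
      linear_combination (n u : ℂ) ^ 2 * hεε
    have hF : ((c : ℂ) * β χ u) * κ u ^ E / (Nat.card I : ℂ) ^ E =
        (c : ℂ) * β χ u * ((n u : ℂ) ^ 2) ^ E := by
      rw [hκu u hu, mul_pow]
      field_simp
    have hfin : (lg Z ε d χ u - ((c : ℂ) * β χ u) * κ u ^ E / (Nat.card I : ℂ) ^ E) /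
        (Nat.card D : ℂ) = -((q : ℂ) * ((ε u : ℂ) * d χ u)) := by
      rw [hF, lg_of_not_mem hu, hLD.h3a χ u hu, div_eq_iff hD]
      rw [hsq] at hqc
      linear_combination (-(ε u : ℂ) * d χ u) * hqc +
        ((c : ℂ) * (n u : ℂ) * d χ u * ((n u : ℂ) ^ 2) ^ E) * hεε
    change IsIntegral ℤ ((lg Z ε d χ u - ((c : ℂ) * β χ u) * κ u ^ E / (Nat.card I : ℂ) ^ E) /
        (Nat.card D : ℂ))
    rw [hfin]
    exact ((LSM_intCast_isIntegral q).mul
      ((LSM_intCast_isIntegral (ε u)).mul (hLD.h7 χ u hu))).neg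

end Pool.Agent.FI
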